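import Mathlib
import Pool.Agent.Y353.SU.Loc

/-!
Project SM (helper353): the local count for sums of several monomials, one of the variables of which occurs in
only one monomial.
-/

set_option autoImplicit false

namespace Pool.Agent.Y353.SM

open Finset
open Pool.Agent.TH194.BL (UU norm_mulChar norm_mulChar_le)
open Pool.Agent.Y353.SU

section
variable {t : ℕ} [Fact t.Prime] {k : ℕ}

theorem UU_mul (w : Fin k → ℕ) (A B : Fin k → (ZMod t)ˣ) : UU w (A * B) = UU w A * UU w B := by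
  unfold UU
  rw [← prod_mul_distrib]
  exact prod_congr rfl fun i _ => by rw [Pi.mul_apply, mul_pow]

theorem UU_single (w : Fin k → ℕ) (i₀ : Fin k) (T : (ZMod t)ˣ) :
    UU w (Pi.mulSingle i₀ T) = T ^ w i₀ := by
  unfold UU
  rw [prod_eq_single i₀]
  · rw [Pi.mulSingle_eq_same]
  · intro i _ hi
    rw [Pi.mulSingle_eq_of_ne hi, one_pow]
  · intro h
    exact absurd (mem_univ _) h

theorem sum_mulChar_zero (χ : MulChar (ZMod t) ℂ) (hχ : χ ≠ 1) : ∑ T : (ZMod t)ˣ, χ (T : ZMod t) = 0 := by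
  have h1 := MulChar.sum_eq_zero_of_ne_one hχ
  have h4 : ∀ a : ZMod t, a ∉ Set.range (Units.val : (ZMod t)ˣ → ZMod t) → χ a = 0 := by
    intro a ha
    exact MulChar.map_nonunit _ (fun h => ha ⟨h.unit, rfl⟩)
  rw [← h1]
  exact Fintype.sum_of_injective Units.val Units.val_injective _ _ (fun a ha => h4 a ha) (fun _ => rfl)

theorem sum1 {R e q : ℕ} (hq : q.Prime) (he0 : 0 < e) (heR : e ≤ R) (hqe : ¬ q ∣ e)
    (χ : MulChar (ZMod t) ℂ) (hχ : orderOf χ = q) (u : (ZMod t)ˣ) (s : ZMod t) :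
    ‖∑ T : (ZMod t)ˣ, χ ((u : ZMod t) * (T : ZMod t) ^ e + s)‖ ≤ R * Real.sqrt t := by
  have hχ1 : χ ≠ 1 := by
    intro h
    rw [h, orderOf_one] at hχ
    exact hq.one_lt.ne hχ
  by_cases hs : s = 0
  · have h1 : ∑ T : (ZMod t)ˣ, χ ((u : ZMod t) * (T : ZMod t) ^ e + s) = 0 := by
      have h2 : χ ^ e ≠ 1 := by
        intro h
        rw [← orderOf_dvd_iff_pow_eq_one, hχ] at h
        exact hqe h
      have h3 : ∀ T : (ZMod t)ˣ, χ ((u : ZMod t) * (T : ZMod t) ^ e + s) = χ u * (χ ^ e) (T : ZMod t) := by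
        intro T
        rw [hs, add_zero, map_mul, map_pow, MulChar.pow_apply' χ he0.ne']
      simp_rw [h3]
      rw [← mul_sum, sum_mulChar_zero _ h2, mul_zero]
    rw [h1, norm_zero]
    positivity
  · obtain ⟨v, rfl⟩ : ∃ v : (ZMod t)ˣ, (v : ZMod t) = s := ⟨Units.mk0 s hs, rfl⟩
    have ht1 : (0 : ℝ) < (t : ℝ) - 1 := by
      have : (2 : ℝ) ≤ t := by exact_mod_cast (Fact.out : t.Prime).two_le
      linarith
    have h1 := char_sum_le (t := t) (k := 1) R (fun _ => 0) (fun _ => e) (by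
      intro r _ hr
      have h2 := hr 0
      simp only [Nat.cast_zero, sub_zero] at h2
      exact (Nat.le_of_dvd he0 (Int.natCast_dvd_natCast.1 h2)).trans heR) χ hχ1 v u
    have h2 : ∑ A : Fin 1 → (ZMod t)ˣ, χ (v * (UU (fun _ => 0) A : ZMod t) + u * (UU (fun _ => e) A : ZMod t)) =
        ∑ T : (ZMod t)ˣ, χ ((u : ZMod t) * (T : ZMod t) ^ e + v) := by
      refine Fintype.sum_equiv (Equiv.funUnique (Fin 1) (ZMod t)ˣ) _ _ (fun A => ?_)
      congr 1
      unfold UU
      simp only [Finset.univ_unique, Finset.prod_singleton, pow_zero, Units.val_one, mul_one, Units.val_pow_eq_pow_val]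
      rw [add_comm]
      rfl
    rw [h2, pow_one] at h1
    have h3 : ((t : ℝ) - 1) * ‖∑ T : (ZMod t)ˣ, χ ((u : ZMod t) * (T : ZMod t) ^ e + v)‖ ≤
        ((t : ℝ) - 1) * (R * Real.sqrt t) := by
      refine h1.trans (le_of_eq ?_)
      ring
    exact le_of_mul_le_mul_left h3 ht1

open Classical in
theorem zeros1 {R e : ℕ} (he0 : 0 < e) (heR : e ≤ R) (u : (ZMod t)ˣ) (s : ZMod t) :
    ((univ.filter (fun T : (ZMod t)ˣ => (u : ZMod t) * (T : ZMod t) ^ e + s = 0)).card : ℝ) ≤ R := by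
  have h1 : (univ.filter (fun T : (ZMod t)ˣ => (u : ZMod t) * (T : ZMod t) ^ e + s = 0)).card ≤
      (Polynomial.nthRootsFinset e (-s * ((u⁻¹ : (ZMod t)ˣ) : ZMod t))).card := by
    apply card_le_card_of_injOn (fun T : (ZMod t)ˣ => (T : ZMod t))
    · intro T hT
      rw [mem_coe, mem_filter] at hT
      rw [mem_coe, Polynomial.mem_nthRootsFinset he0]
      have h2 : ((u⁻¹ : (ZMod t)ˣ) : ZMod t) * (u : ZMod t) = 1 := by
        rw [← Units.val_mul, inv_mul_cancel, Units.val_one]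
      calc (T : ZMod t) ^ e = (((u⁻¹ : (ZMod t)ˣ) : ZMod t) * (u : ZMod t)) * (T : ZMod t) ^ e := by
            rw [h2, one_mul]
        _ = ((u : ZMod t) * (T : ZMod t) ^ e + s) * ((u⁻¹ : (ZMod t)ˣ) : ZMod t) +
            -s * ((u⁻¹ : (ZMod t)ˣ) : ZMod t) := by ring
        _ = _ := by rw [hT.2, zero_mul, zero_add]
    · intro a _ b _ h
      exact Units.ext h
  have h2 : (Polynomial.nthRootsFinset e (-s * ((u⁻¹ : (ZMod t)ˣ) : ZMod t))).card ≤ e := by
    rw [Polynomial.nthRootsFinset_def]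
    exact (Multiset.toFinset_card_le _).trans (Polynomial.card_nthRoots _ _)
  exact_mod_cast (h1.trans h2).trans heR

theorem avg (i₀ : Fin k) (f : (Fin k → (ZMod t)ˣ) → ℂ) (Bd : ℝ)
    (h : ∀ A, ‖∑ T : (ZMod t)ˣ, f ((Pi.mulSingle i₀ T : Fin k → (ZMod t)ˣ) * A)‖ ≤ Bd) :
    ((t : ℝ) - 1) * ‖∑ A, f A‖ ≤ ((t : ℝ) - 1) ^ k * Bd := by
  have htp : t.Prime := Fact.out
  have ht1 : (0 : ℝ) < (t : ℝ) - 1 := by
    have : (2 : ℝ) ≤ t := by exact_mod_cast htp.two_le
    linarith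
  have hcard : (Fintype.card (ZMod t)ˣ : ℝ) = (t : ℝ) - 1 := by
    rw [ZMod.card_units_eq_totient, Nat.totient_prime htp, Nat.cast_sub htp.one_le, Nat.cast_one]
  have h1 : ∀ T : (ZMod t)ˣ, ∑ A, f ((Pi.mulSingle i₀ T : Fin k → (ZMod t)ˣ) * A) = ∑ A, f A := fun T =>
    Fintype.sum_equiv (Equiv.mulLeft (Pi.mulSingle i₀ T : Fin k → (ZMod t)ˣ)) _ _ (fun _ => rfl)
  have h2 : ∑ A, ∑ T : (ZMod t)ˣ, f ((Pi.mulSingle i₀ T : Fin k → (ZMod t)ˣ) * A) =
      (Fintype.card (ZMod t)ˣ : ℂ) * ∑ A, f A := by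
    rw [sum_comm]
    simp_rw [h1]
    rw [sum_const, card_univ, nsmul_eq_mul]
  have h3 : ((t : ℝ) - 1) * ‖∑ A, f A‖ =
      ‖∑ A, ∑ T : (ZMod t)ˣ, f ((Pi.mulSingle i₀ T : Fin k → (ZMod t)ˣ) * A)‖ := by
    rw [h2, norm_mul, ← hcard]
    simp
  rw [h3]
  refine (norm_sum_le _ _).trans ((sum_le_card_nsmul _ _ Bd fun A _ => h A).trans (le_of_eq ?_))
  rw [card_univ, Fintype.card_fun, Fintype.card_fin, nsmul_eq_mul, Nat.cast_pow, hcard]

end

/-- the sum of monomials -/
def PP {k m : ℕ} {F : Type*} [CommRing F] (a : Fin m → F) (x : Fin m → Fin k → ℕ) (A : Fin k → F) : F :=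
  ∑ j, a j * ∏ i, A i ^ x j i

open Classical in
/-- **The local count.** -/
theorem locK (R k m q t : ℕ) [Fact t.Prime] (hq : q.Prime) (hqt : q ∣ t - 1)
    (hkt : 16 * (k + R + 1) ^ 2 ≤ t) (x : Fin m → Fin k → ℕ) (a : Fin m → ZMod t) (c : ZMod t)
    (j₀ : Fin m) (i₀ : Fin k) (ha : a j₀ ≠ 0) (he0 : 0 < x j₀ i₀) (heR : x j₀ i₀ ≤ R)
    (hqe : ¬ q ∣ x j₀ i₀) (hx : ∀ j, j ≠ j₀ → x j i₀ = 0) :
    (((univ : Finset (Fin k → ZMod t)).filter (fun A => (∃ i, A i = 0) ∨
      ∃ z, PP a x A = c * z ^ q)).card : ℝ) ≤ 3 / 4 * (t : ℝ) ^ k := by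
  have htp : t.Prime := Fact.out
  rcases k with _ | k
  · exact i₀.elim0
  have ht : (16 : ℝ) * ((k : ℝ) + 1 + R + 1) ^ 2 ≤ t := by exact_mod_cast hkt
  have ht0 : (0 : ℝ) < t := by exact_mod_cast htp.pos
  have hR0 : (0 : ℝ) ≤ R := Nat.cast_nonneg R
  have hk0 : (0 : ℝ) ≤ k := Nat.cast_nonneg k
  have hsq : 4 * ((k : ℝ) + 1 + R + 1) ≤ Real.sqrt t := by
    rw [Real.le_sqrt (by positivity) ht0.le]
    nlinarith
  have hsq2 : Real.sqrt t * Real.sqrt t = t := Real.mul_self_sqrt ht0.le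
  have ht1 : (0 : ℝ) < (t : ℝ) - 1 := by
    have : (2 : ℝ) ≤ t := by exact_mod_cast htp.two_le
    linarith
  obtain ⟨al, hal⟩ : ∃ al : (ZMod t)ˣ, (al : ZMod t) = a j₀ := ⟨Units.mk0 (a j₀) ha, rfl⟩
  -- the sum at the units
  set V : (Fin (k + 1) → (ZMod t)ˣ) → ZMod t := fun A => ∑ j, a j * (UU (x j) A : ZMod t) with hV
  have hVs : ∀ (T : (ZMod t)ˣ) (A : Fin (k + 1) → (ZMod t)ˣ), V ((Pi.mulSingle i₀ T : Fin (k + 1) → (ZMod t)ˣ) * A) =
      ((al * UU (x j₀) A : (ZMod t)ˣ) : ZMod t) * (T : ZMod t) ^ x j₀ i₀ +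
        ∑ j ∈ univ.erase j₀, a j * (UU (x j) A : ZMod t) := by
    intro T A
    rw [hV]
    simp only
    rw [← add_sum_erase univ _ (mem_univ j₀)]
    congr 1
    · rw [UU_mul, UU_single, Units.val_mul, Units.val_mul, hal, Units.val_pow_eq_pow_val]
      ring
    · refine sum_congr rfl fun j hj => ?_
      rw [mem_erase] at hj
      rw [UU_mul, UU_single, hx j hj.1, pow_zero, one_mul]
  -- the three sets
  set Z0 : Finset (Fin (k + 1) → ZMod t) := univ.filter (fun A => ∃ i, A i = 0) with hZ0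
  set S1 : Finset (Fin (k + 1) → (ZMod t)ˣ) := univ.filter (fun A => V A = 0) with hS1
  set S2 : Finset (Fin (k + 1) → (ZMod t)ˣ) :=
    univ.filter (fun A => c ≠ 0 ∧ ∃ z, z ≠ 0 ∧ V A = c * z ^ q) with hS2
  have hcard : (univ.filter (fun A : Fin (k + 1) → ZMod t => (∃ i, A i = 0) ∨
      ∃ z, PP a x A = c * z ^ q)).card ≤
      Z0.card + (S1.card + S2.card) := by
    have hsub : (univ.filter (fun A : Fin (k + 1) → ZMod t => (∃ i, A i = 0) ∨
      ∃ z, PP a x A = c * z ^ q)) ⊆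
      Z0 ∪ (S1 ∪ S2).image (fun A i => (A i : ZMod t)) := by
      intro A hA
      rw [mem_filter] at hA
      rw [mem_union]
      by_cases h0 : ∃ i, A i = 0
      · left
        rw [hZ0, mem_filter]
        exact ⟨mem_univ _, h0⟩
      · right
        rcases hA.2 with h | ⟨z, hz⟩
        · exact absurd h h0
        push Not at h0
        rw [mem_image]
        refine ⟨fun i => Units.mk0 (A i) (h0 i), ?_, by ext i; simp⟩
        have e : V (fun i => Units.mk0 (A i) (h0 i)) = PP a x A := by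
          rw [hV]
          unfold PP UU
          simp only
          refine sum_congr rfl fun j _ => ?_
          rw [Units.coe_prod]
          simp
        rw [mem_union, hS1, hS2, mem_filter, mem_filter, e]
        by_cases hcz : c * z ^ q = 0
        · left
          exact ⟨mem_univ _, by rw [hz, hcz]⟩
        · right
          refine ⟨mem_univ _, fun h => hcz (by rw [h, zero_mul]), z, fun h => hcz ?_, hz⟩
          rw [h, zero_pow hq.ne_zero, mul_zero]
    refine (card_le_card hsub).trans ((card_union_le _ _).trans ?_)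
    exact Nat.add_le_add_left (card_image_le.trans (card_union_le _ _)) _
  -- vanishing coordinates
  have hZ0c : (Z0.card : ℝ) ≤ ((k : ℝ) + 1) * (t : ℝ) ^ k := by
    have h1 : Z0 ⊆ (univ : Finset (Fin (k + 1))).biUnion
        (fun i => Fintype.piFinset (fun j => if j = i then {(0 : ZMod t)} else univ)) := by
      intro A hA
      rw [hZ0, mem_filter] at hA
      obtain ⟨i, hi⟩ := hA.2
      rw [mem_biUnion]
      refine ⟨i, mem_univ _, ?_⟩
      rw [Fintype.mem_piFinset]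
      intro j
      split_ifs with h
      · rw [h, hi]
        exact mem_singleton_self _
      · exact mem_univ _
    have h2 : ∀ i : Fin (k + 1), (Fintype.piFinset
        (fun j => if j = i then {(0 : ZMod t)} else (univ : Finset (ZMod t)))).card = t ^ k := by
      intro i
      rw [Fintype.card_piFinset]
      have h3 : ∀ j : Fin (k + 1), (if j = i then {(0 : ZMod t)} else (univ : Finset (ZMod t))).card =
          if j = i then 1 else t := by
        intro j
        split_ifs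
        · simp
        · rw [card_univ, ZMod.card]
      simp_rw [h3]
      rw [prod_ite]
      simp [filter_ne']
    have h4 := (card_le_card h1).trans card_biUnion_le
    simp_rw [h2] at h4
    rw [sum_const, card_univ, Fintype.card_fin, smul_eq_mul] at h4
    exact_mod_cast h4
  -- vanishing values
  have hS1c : (S1.card : ℝ) ≤ R * (t : ℝ) ^ k := by
    have h1 := avg i₀ (fun A => if V A = 0 then (1 : ℂ) else 0) R (by
      intro A
      simp_rw [hVs]
      rw [← sum_filter, sum_const, nsmul_eq_mul, mul_one, Complex.norm_natCast]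
      exact zeros1 he0 heR _ _)
    have h2 : ∑ A : Fin (k + 1) → (ZMod t)ˣ, (if V A = 0 then (1 : ℂ) else 0) = (S1.card : ℂ) := by
      rw [← sum_filter, sum_const, nsmul_eq_mul, mul_one]
    rw [h2, Complex.norm_natCast] at h1
    have h3 : ((t : ℝ) - 1) * (S1.card : ℝ) ≤ ((t : ℝ) - 1) * (R * ((t : ℝ) - 1) ^ k) := by
      refine h1.trans (le_of_eq ?_)
      ring
    have h3 := le_of_mul_le_mul_left h3 ht1
    have h4 : ((t : ℝ) - 1) ^ k ≤ (t : ℝ) ^ k := pow_le_pow_left₀ ht1.le (by linarith) k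
    exact h3.trans (mul_le_mul_of_nonneg_left h4 hR0)
  -- the main set
  have hS2c : (S2.card : ℝ) ≤ (t : ℝ) ^ (k + 1) / 2 + R / 2 * Real.sqrt t * (t : ℝ) ^ k := by
    by_cases hc : c = 0
    · have : S2 = ∅ := by
        rw [hS2]
        apply filter_false_of_mem
        intro A _ h
        exact h.1 hc
      rw [this, card_empty, Nat.cast_zero]
      positivity
    obtain ⟨χ, hχ⟩ := MulChar.exists_mulChar_orderOf (ZMod t) (R := ℂ) (n := q)
      (by rwa [ZMod.card]) (Complex.isPrimitiveRoot_exp q hq.ne_zero)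
    have hχq : χ ^ q = 1 := by rw [← hχ]; exact pow_orderOf_eq_one χ
    have h1 := avg i₀ (fun A => χ (V A)) (R * Real.sqrt t) (by
      intro A
      simp_rw [hVs]
      exact sum1 hq he0 heR hqe χ hχ _ _)
    set SS := ∑ A : Fin (k + 1) → (ZMod t)ˣ, χ (V A) with hSS
    have h2 : ‖SS‖ ≤ R * Real.sqrt t * (t : ℝ) ^ k := by
      have h3 : ((t : ℝ) - 1) * ‖SS‖ ≤ ((t : ℝ) - 1) * (R * Real.sqrt t * ((t : ℝ) - 1) ^ k) := by
        refine h1.trans (le_of_eq ?_)
        ring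
      have h4 := le_of_mul_le_mul_left h3 ht1
      have h5 : ((t : ℝ) - 1) ^ k ≤ (t : ℝ) ^ k := pow_le_pow_left₀ ht1.le (by linarith) k
      refine h4.trans (mul_le_mul_of_nonneg_left h5 (by positivity))
    have hcu : ‖χ c‖ = 1 := by
      have := norm_mulChar χ (Units.mk0 c hc)
      simpa using this
    have h3 : ((starRingEnd ℂ) (χ c) * SS).re ≤ ‖SS‖ := by
      refine (Complex.re_le_norm _).trans ?_
      rw [norm_mul, RCLike.norm_conj, hcu, one_mul]
    have h4 : (S2.card : ℝ) * 2 - ((t : ℝ) - 1) ^ (k + 1) ≤ ((starRingEnd ℂ) (χ c) * SS).re := by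
      rw [hSS, mul_sum, Complex.re_sum]
      have h5 : ∀ A : Fin (k + 1) → (ZMod t)ˣ, (if A ∈ S2 then (2 : ℝ) else 0) - 1 ≤
          ((starRingEnd ℂ) (χ c) * χ (V A)).re := by
        intro A
        split_ifs with hA
        · rw [hS2, mem_filter] at hA
          obtain ⟨_, _, z, hz, hA⟩ := hA
          have h6 : χ (z ^ q) = 1 := by
            have h7 := MulChar.pow_apply' χ hq.ne_zero z
            rw [map_pow, ← h7, hχq]
            exact MulChar.one_apply (isUnit_iff_ne_zero.2 hz)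
          rw [hA, map_mul, h6, mul_one, ← Complex.normSq_eq_conj_mul_self, Complex.ofReal_re,
            Complex.normSq_eq_norm_sq, hcu]
          norm_num
        · have h6 : ‖(starRingEnd ℂ) (χ c) * χ (V A)‖ ≤ 1 := by
            rw [norm_mul, RCLike.norm_conj, hcu, one_mul]
            exact norm_mulChar_le _ _
          have h7 := (abs_le.1 ((Complex.abs_re_le_norm _).trans h6)).1
          linarith
      refine le_trans (le_of_eq ?_) (sum_le_sum fun A _ => h5 A)
      rw [sum_sub_distrib, sum_const, card_univ, Fintype.card_fun, Fintype.card_fin,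
        ZMod.card_units_eq_totient, Nat.totient_prime htp, ← sum_filter, sum_const, nsmul_eq_mul,
        nsmul_eq_mul, mul_one]
      have h8 : univ.filter (fun A => A ∈ S2) = S2 := by
        ext A
        simp
      rw [h8, Nat.cast_pow, Nat.cast_sub htp.one_le, Nat.cast_one]
    have h5 : ((t : ℝ) - 1) ^ (k + 1) ≤ (t : ℝ) ^ (k + 1) :=
      pow_le_pow_left₀ ht1.le (by linarith) (k + 1)
    linarith
  have htk : (0 : ℝ) < (t : ℝ) ^ k := by positivity
  have hfin : (((univ.filter (fun A : Fin (k + 1) → ZMod t => (∃ i, A i = 0) ∨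
      ∃ z, PP a x A = c * z ^ q)).card : ℕ) : ℝ) ≤
      (Z0.card : ℝ) + ((S1.card : ℝ) + (S2.card : ℝ)) := by exact_mod_cast hcard
  have h6 : (k : ℝ) + 1 + R + R / 2 * Real.sqrt t ≤ t / 4 := by
    have h8 : 8 ≤ Real.sqrt t := by linarith
    have h9 : (4 * ((k : ℝ) + 1 + R + 1)) * Real.sqrt t ≤ t := by
      have h7 := mul_le_mul_of_nonneg_right hsq (Real.sqrt_nonneg (t : ℝ))
      rwa [hsq2] at h7
    nlinarith [mul_nonneg hk0 (sub_nonneg.2 h8), mul_nonneg hR0 (sub_nonneg.2 h8)]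
  calc _ ≤ (Z0.card : ℝ) + ((S1.card : ℝ) + (S2.card : ℝ)) := hfin
    _ ≤ ((k : ℝ) + 1) * (t : ℝ) ^ k + (R * (t : ℝ) ^ k +
        ((t : ℝ) ^ (k + 1) / 2 + R / 2 * Real.sqrt t * (t : ℝ) ^ k)) := by linarith
    _ = ((k : ℝ) + 1 + R + R / 2 * Real.sqrt t) * (t : ℝ) ^ k + (t : ℝ) ^ (k + 1) / 2 := by ring
    _ ≤ (t / 4) * (t : ℝ) ^ k + (t : ℝ) ^ (k + 1) / 2 := by
      have := mul_le_mul_of_nonneg_right h6 htk.le
      linarith
    _ = _ := by ring

end Pool.Agent.Y353.SM
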