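import Mathlib
import Pool.Agent.Y353.SM.Loc
import Pool.Agent.Y353.SU.Cov

/-!
Project SM (helper353): sums of several monomials with smooth coefficients, the covering of the exceptional set.
-/

set_option autoImplicit false

namespace Pool.Agent.Y353.SM

open Finset
open Pool.Agent.TH194.BL (Cube S_LSK pow_mod_lam)
open Pool.Agent.Y353.SU

/-- one of the variables occurs in only one term, where its exponent is positive, at most `G` and not divisible
by `q` -/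
def Free (k m q G : ℕ) (x : Fin m → Fin k → ℕ) : Prop :=
  ∃ (j₀ : Fin m) (i₀ : Fin k), 0 < x j₀ i₀ ∧ x j₀ i₀ ≤ G ∧ ¬ q ∣ x j₀ i₀ ∧ ∀ j, j ≠ j₀ → x j i₀ = 0

/-- The tuples `A` of positive integers with a relation `∑ a_j ∏ A_i ^ x_ji = c w ^ q`. -/
def RelM (k m q : ℕ) (Y₁ Y₂ : ℝ) (G : ℕ) : Set (Fin k → ℕ) :=
  {A | (∀ i, 0 < A i) ∧ ∃ (x : Fin m → Fin k → ℕ) (a : Fin m → ℤ) (c w : ℤ), (∀ j, Smo Y₁ (a j)) ∧ Smo Y₂ c ∧
    Free k m q G x ∧ ∑ j, a j * ∏ i, (A i : ℤ) ^ x j i = c * w ^ q}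

open Classical in
/-- the local sets -/
noncomputable def OmM (k m q : ℕ) (x : Fin m → Fin k → ℕ) (a : Fin m → ℤ) (c : ℤ) (t : ℕ) :
    Finset (Fin k → ZMod t) :=
  if h : t.Prime then
    haveI : Fact t.Prime := ⟨h⟩
    (univ : Finset (Fin k → ZMod t)).filter (fun A => (∃ i, A i = 0) ∨
      ∃ z, PP (fun j => (a j : ZMod t)) x A = (c : ZMod t) * z ^ q)
  else ∅

theorem mem_OmM {k m q : ℕ} {x : Fin m → Fin k → ℕ} {a : Fin m → ℤ} {c : ℤ} {t : ℕ} (ht : t.Prime)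
    (A : Fin k → ZMod t) (h : (∃ i, A i = 0) ∨
      ∃ z, PP (fun j => (a j : ZMod t)) x A = (c : ZMod t) * z ^ q) :
    A ∈ OmM k m q x a c t := by
  classical
  unfold OmM
  rw [dif_pos ht]
  have : Fact t.Prime := ⟨ht⟩
  rw [mem_filter]
  exact ⟨mem_univ _, h⟩

theorem card_OmM {k m q R : ℕ} (hq : q.Prime) {x : Fin m → Fin k → ℕ} {a : Fin m → ℤ} {c : ℤ} {t : ℕ}
    (ht : t.Prime) (hqt : q ∣ t - 1) (htk : 16 * (k + R + 1) ^ 2 ≤ t) (ha : ∀ j, (a j : ZMod t) ≠ 0)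
    (hx : Free k m q R x) :
    ((OmM k m q x a c t).card : ℝ) ≤ 3 / 4 * (t : ℝ) ^ k := by
  classical
  have : Fact t.Prime := ⟨ht⟩
  obtain ⟨j₀, i₀, h1, h2, h3, h4⟩ := hx
  have h := locK R k m q t hq hqt htk x (fun j => (a j : ZMod t)) (c : ZMod t) j₀ i₀ (ha j₀) h1 h2 h3 h4
  refine le_trans (le_of_eq ?_) h
  unfold OmM
  rw [dif_pos ht]

open Classical in
/-- the sets to which the large sieve is applied -/
noncomputable def ZM (k m q : ℕ) (a₀ : Fin k → ℕ) (N : ℕ) (P : Finset ℕ) (x : Fin m → Fin k → ℕ)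
    (a : Fin m → ℤ) (c : ℤ) : Finset (Fin k → ℕ) :=
  (Cube a₀ N).filter (fun A => ∀ t ∈ P, (fun i => ((A i : ℕ) : ZMod t)) ∈ OmM k m q x a c t)

theorem card_ZM (hlsk : S_LSK) {k m q R : ℕ} (hq : q.Prime) {x : Fin m → Fin k → ℕ} {a : Fin m → ℤ} {c : ℤ}
    {N Q j : ℕ} (a₀ : Fin k → ℕ) {P : Finset ℕ}
    (hN : 1 ≤ N) (hQ : Q ^ 2 ≤ N) (hP : ∀ t ∈ P, t.Prime)
    (hPq : ∀ t ∈ P, q ∣ t - 1)
    (hPk : ∀ t ∈ P, 16 * (k + R + 1) ^ 2 ≤ t) (ha : ∀ t ∈ P, ∀ j, (a j : ZMod t) ≠ 0)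
    (hx : Free k m q R x)
    (hj : ∀ D ∈ P.powersetCard j, ∏ t ∈ D, t ≤ Q) :
    ((ZM k m q a₀ N P x a c).card : ℝ) * ((P.card.choose j : ℝ) / 3 ^ j) ≤ (12 * (N : ℝ)) ^ k := by
  classical
  refine hlsk k N Q j a₀ P (ZM k m q a₀ N P x a c) (OmM k m q x a c) hN hQ hP ?_ ?_ ?_ hj
  · intro z hz i
    unfold ZM at hz
    rw [mem_filter, Cube, Fintype.mem_piFinset] at hz
    exact hz.1 i
  · intro t ht
    exact card_OmM hq (hP t ht) (hPq t ht) (hPk t ht) (ha t ht) hx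
  · intro z hz t ht
    unfold ZM at hz
    rw [mem_filter] at hz
    exact hz.2 t ht

open Classical in
/-- **Covering.** -/
theorem card_relM_le (hlsk : S_LSK) {k m q G : ℕ} (hq : q.Prime)
    {lam N Q j : ℕ} (a₀ : Fin k → ℕ) {P S₁ S₂ : Finset ℕ} {Y₁ Y₂ : ℝ}
    (hN : 1 ≤ N) (hQ : Q ^ 2 ≤ N) (hP : ∀ t ∈ P, t.Prime) (hPl : ∀ t ∈ P, t - 1 ∣ lam)
    (hPq : ∀ t ∈ P, q ∣ t - 1)
    (hPk : ∀ t ∈ P, 16 * (k + G + 1) ^ 2 ≤ t)
    (hj : ∀ D ∈ P.powersetCard j, ∏ t ∈ D, t ≤ Q) (hjP : j ≤ P.card)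
    (hG : G < lam) (hS1 : ∀ t ∈ P, ∀ p ∈ S₁, ((p : ℕ) : ZMod t) ≠ 0)
    (hY1 : ∀ p : ℕ, p.Prime → (p : ℝ) ≤ Y₁ → p ∈ S₁)
    (hY2 : ∀ p : ℕ, p.Prime → (p : ℝ) ≤ Y₂ → p ∈ S₂) :
    (((Cube a₀ N).filter (fun A => A ∈ RelM k m q Y₁ Y₂ G)).card : ℝ) ≤
      2 ^ (m + 1) * (lam : ℝ) ^ (m * (k + S₁.card)) * (q : ℝ) ^ S₂.card *
        ((12 * (N : ℝ)) ^ k / ((P.card.choose j : ℝ) / 3 ^ j)) := by
  have hlam : 0 < lam := by omega
  have : NeZero lam := ⟨hlam.ne'⟩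
  have hq0 : 0 < q := hq.pos
  set L : ℝ := (P.card.choose j : ℝ) / 3 ^ j with hL
  have hLpos : 0 < L := by
    have : 0 < P.card.choose j := Nat.choose_pos hjP
    positivity
  set I := (Fin m → Fin k → Fin lam) × (Fin m → S₁ → Fin lam) × (S₂ → Fin q) × (Fin m → Bool) × Bool with hI
  let good : I → Prop := fun i => Free k m q G (fun j l => ((i.1 j l : Fin lam) : ℕ))
  let ZI : I → Finset (Fin k → ℕ) := fun i =>
    ZM k m q a₀ N P (fun j l => ((i.1 j l : Fin lam) : ℕ))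
      (fun j => co (i.2.2.2.1 j) (i.2.1 j)) (co i.2.2.2.2 i.2.2.1)
  have hsub : (Cube a₀ N).filter (fun A => A ∈ RelM k m q Y₁ Y₂ G) ⊆
      ((univ : Finset I).filter good).biUnion ZI := by
    intro A hA
    rw [mem_filter] at hA
    obtain ⟨hAc, hA0, x, a, c, w, ha, hc, hg, heq⟩ := hA
    choose sa ea using fun j => exists_sgn (S := S₁) (ha j).1 (fun p hp hpa => hY1 p hp ((ha j).2 p hp hpa))
    obtain ⟨sc, ec⟩ := exists_sgn (S := S₂) hc.1 (fun p hp hpc => hY2 p hp (hc.2 p hp hpc))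
    rw [mem_biUnion]
    refine ⟨((fun j l => ⟨x j l % lam, Nat.mod_lt _ hlam⟩),
      (fun j p => ⟨(a j).natAbs.factorization p % lam, Nat.mod_lt _ hlam⟩),
      (fun p => ⟨c.natAbs.factorization p % q, Nat.mod_lt _ hq0⟩), sa, sc), ?_, ?_⟩
    · rw [mem_filter]
      refine ⟨mem_univ _, ?_⟩
      obtain ⟨j₀, i₀, h1, h2, h3, h4⟩ := hg
      have h5 : x j₀ i₀ % lam = x j₀ i₀ := Nat.mod_eq_of_lt (lt_of_le_of_lt h2 hG)
      refine ⟨j₀, i₀, ?_, ?_, ?_, ?_⟩
      · show 0 < x j₀ i₀ % lam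
        rw [h5]; exact h1
      · show x j₀ i₀ % lam ≤ G
        rw [h5]; exact h2
      · show ¬ q ∣ x j₀ i₀ % lam
        rw [h5]; exact h3
      · intro j hj
        show x j i₀ % lam = 0
        rw [h4 j hj, Nat.zero_mod]
    · show A ∈ ZM k m q a₀ N P (fun j l => x j l % lam)
        (fun j => co (sa j) (fun p : S₁ =>
          (⟨(a j).natAbs.factorization p % lam, Nat.mod_lt _ hlam⟩ : Fin lam)))
        (co sc (fun p : S₂ => (⟨c.natAbs.factorization p % q, Nat.mod_lt _ hq0⟩ : Fin q)))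
      unfold ZM
      rw [mem_filter]
      refine ⟨hAc, fun t ht => ?_⟩
      have htp := hP t ht
      have : Fact t.Prime := ⟨htp⟩
      apply mem_OmM htp
      by_cases h0 : ∃ i, ((A i : ℕ) : ZMod t) = 0
      · left; exact h0
      · right
        push Not at h0
        refine ⟨((∏ p : S₂, ((p : ℕ) : ZMod t) ^ (c.natAbs.factorization p / q)) * (w : ZMod t)), ?_⟩
        have e0 : PP (fun j => ((co (sa j) (fun p : S₁ =>
            (⟨(a j).natAbs.factorization p % lam, Nat.mod_lt _ hlam⟩ : Fin lam)) : ℤ) : ZMod t))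
            (fun j l => x j l % lam) (fun i => ((A i : ℕ) : ZMod t)) =
            ((∑ j, a j * ∏ i, (A i : ℤ) ^ x j i : ℤ) : ZMod t) := by
          unfold PP
          rw [Int.cast_sum]
          refine Finset.sum_congr rfl fun j _ => ?_
          beta_reduce
          rw [co_mod htp (hPl t ht) hlam (hS1 t ht), ← ea, Int.cast_mul, Int.cast_prod]
          congr 1
          apply Finset.prod_congr rfl
          intro i _
          rw [pow_mod_lam (hPl t ht) (h0 i), Int.cast_pow, Int.cast_natCast]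
        rw [e0]
        have h5 := congrArg (fun z : ℤ => (z : ZMod t)) heq
        simp only [Int.cast_mul, Int.cast_pow] at h5
        rw [h5]
        have h6 : (c : ZMod t) = ((co sc (fun p : S₂ =>
            (⟨c.natAbs.factorization p % q, Nat.mod_lt _ hq0⟩ : Fin q)) : ℤ) : ZMod t) *
            (∏ p : S₂, ((p : ℕ) : ZMod t) ^ (c.natAbs.factorization p / q)) ^ q := by
          conv_lhs => rw [ec]
          unfold co
          push_cast
          rw [mul_assoc, ← Finset.prod_pow, ← Finset.prod_mul_distrib]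
          congr 1
          apply Finset.prod_congr rfl
          intro p _
          rw [← pow_mul, ← pow_add]
          congr 1
          exact (Nat.mod_add_div' _ _).symm
        rw [h6, mul_pow]
        ring
  have hZ : ∀ i ∈ (univ : Finset I).filter good, ((ZI i).card : ℝ) ≤ (12 * (N : ℝ)) ^ k / L := by
    intro i hi
    rw [mem_filter] at hi
    rw [le_div_iff₀ hLpos]
    exact card_ZM hlsk hq a₀ hN hQ hP hPq hPk (fun t ht j => co_ne (hP t ht) (hS1 t ht) _ _) hi.2 hj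
  have hcard : (Fintype.card I : ℝ) = 2 ^ (m + 1) * (lam : ℝ) ^ (m * (k + S₁.card)) * (q : ℝ) ^ S₂.card := by
    simp only [hI, Fintype.card_prod, Fintype.card_fun, Fintype.card_fin, Fintype.card_coe,
      Fintype.card_bool]
    push_cast
    ring
  calc (((Cube a₀ N).filter (fun A => A ∈ RelM k m q Y₁ Y₂ G)).card : ℝ)
      ≤ ((((univ : Finset I).filter good).biUnion ZI).card : ℝ) := by
        exact_mod_cast card_le_card hsub
    _ ≤ ∑ i ∈ (univ : Finset I).filter good, ((ZI i).card : ℝ) := by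
        exact_mod_cast card_biUnion_le
    _ ≤ ∑ i ∈ (univ : Finset I).filter good, (12 * (N : ℝ)) ^ k / L := sum_le_sum hZ
    _ = (((univ : Finset I).filter good).card : ℝ) * ((12 * (N : ℝ)) ^ k / L) := by
        rw [sum_const, nsmul_eq_mul]
    _ ≤ (Fintype.card I : ℝ) * ((12 * (N : ℝ)) ^ k / L) := by
        apply mul_le_mul_of_nonneg_right _ (by positivity)
        exact_mod_cast card_le_univ _
    _ = _ := by rw [hcard]

end Pool.Agent.Y353.SM
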