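import Mathlib
import Pool.Agent.Y353.SM.Cov
import Pool.Agent.Y353.SU.One

/-!
Project SM (helper353): power saving for sums of monomials, one prime exponent, one cube.
-/

set_option autoImplicit false

namespace Pool.Agent.Y353.SM

open Finset Filter Topology
open Pool.Agent.TH194.BL Pool.Agent.Y353.PS Pool.Agent.Y353.SU

/-- further parameters -/
structure ExtM (k m B K : ℕ) (L : ℝ) (z : ℕ) : Prop where
  zk : 16 * (k + GG L + 1) ^ 2 ≤ z
  zL : L < z
  fin : Real.log 2 * (m + 1) + m * ((k + L ^ (1 / 25 : ℝ)) * L ^ (19 / 20 : ℝ)) +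
    B * Real.log L * L ^ (9 / 10 : ℝ) +
    k * Real.log 12 + √L ≤ (1 / (400 * K) - 1 / (500 * K)) * L

theorem ev_extM (k m B K : ℕ) (hK : 1 ≤ K) : ∀ᶠ L : ℝ in atTop, ExtM k m B K L ⌊Real.exp (√L)⌋₊ := by
  have hsq : Tendsto (fun L : ℝ => √L) atTop atTop := Real.tendsto_sqrt_atTop
  have hex : Tendsto (fun L : ℝ => Real.exp (√L)) atTop atTop := Real.tendsto_exp_atTop.comp hsq
  have hKR : (1 : ℝ) ≤ K := by exact_mod_cast hK
  have hk0 : (0 : ℝ) ≤ k := Nat.cast_nonneg k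
  have hm0 : (0 : ℝ) ≤ m := Nat.cast_nonneg m
  have e1 : ∀ᶠ L : ℝ in atTop, 64 * ((k : ℝ) + 2) ^ 2 ≤ Real.exp (√L / 3) := by
    have h : Tendsto (fun L : ℝ => Real.exp (√L / 3)) atTop atTop :=
      Real.tendsto_exp_atTop.comp (hsq.atTop_div_const (by norm_num))
    exact h.eventually_ge_atTop _
  have e2 : ∀ᶠ L : ℝ in atTop, 2 * L + 2 ≤ Real.exp (√L) := by
    have h := (Real.tendsto_exp_div_pow_atTop 3).comp hsq
    have h2 := h.eventually_ge_atTop 1
    filter_upwards [h2, eventually_ge_atTop (16 : ℝ)] with L hL hL0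
    simp only [Function.comp_apply] at hL
    have h0 : 0 < L := by linarith
    have h3 : 0 < √L := Real.sqrt_pos.2 h0
    rw [le_div_iff₀ (by positivity), one_mul] at hL
    have h4 : √L * √L = L := Real.mul_self_sqrt h0.le
    have h5 : 4 ≤ √L := by
      rw [Real.le_sqrt (by norm_num) h0.le]; norm_num; exact hL0
    have h6 : √L ^ 3 = √L * L := by rw [pow_succ, sq, h4, mul_comm]
    rw [h6] at hL
    nlinarith
  have e6 := ev_log (B * 20) (1 / 20) (by norm_num)
  have e7 : ∀ᶠ L : ℝ in atTop, 20000 * (K : ℝ) * ((k + 5) * (m + 5)) ≤ L ^ (1 / 200 : ℝ) :=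
    (tendsto_rpow_atTop (by norm_num)).eventually_ge_atTop _
  filter_upwards [e1, e2, e6, e7, eventually_ge_atTop (1 : ℝ)] with L h1 h2 h6 h7 hL1
  have hL0 : 0 < L := by linarith
  set z := ⌊Real.exp (√L)⌋₊ with hz
  have hzge : Real.exp (√L) - 1 ≤ (z : ℝ) := by
    have := Nat.lt_floor_add_one (Real.exp (√L))
    rw [← hz] at this
    linarith
  refine ⟨?_, by linarith, ?_⟩
  · have hE : (GG L : ℝ) ≤ Real.exp (√L / 3) := Nat.floor_le (Real.exp_pos _).le
    have hE1 : (1 : ℝ) ≤ Real.exp (√L / 3) := Real.one_le_exp (by positivity)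
    set E := Real.exp (√L / 3) with hEdef
    have hE3 : Real.exp (√L) = E ^ 3 := by
      rw [hEdef, ← Real.exp_nat_mul]
      congr 1
      push_cast
      ring
    have h3 : (16 : ℝ) * (k + GG L + 1) ^ 2 ≤ z := by
      have h4 : (k : ℝ) + GG L + 1 ≤ (k + 2) * E := by nlinarith
      have h5 : (16 : ℝ) * (k + GG L + 1) ^ 2 ≤ 16 * ((k + 2) * E) ^ 2 := by gcongr
      have h6 : 16 * (((k : ℝ) + 2) * E) ^ 2 * 4 ≤ E ^ 3 := by
        calc 16 * (((k : ℝ) + 2) * E) ^ 2 * 4 = (64 * ((k : ℝ) + 2) ^ 2) * E ^ 2 := by ring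
          _ ≤ E * E ^ 2 := mul_le_mul_of_nonneg_right h1 (by positivity)
          _ = E ^ 3 := by ring
      have h7 : (1 : ℝ) ≤ 16 * (((k : ℝ) + 2) * E) ^ 2 := by
        have : (1 : ℝ) ≤ ((k : ℝ) + 2) * E := by nlinarith
        nlinarith
      rw [hE3] at hzge
      linarith
    exact_mod_cast h3
  · have f2 : L ^ (1 / 25 : ℝ) * L ^ (19 / 20 : ℝ) = L ^ (99 / 100 : ℝ) := by
      rw [← Real.rpow_add hL0]; norm_num
    have f1 : L ^ (19 / 20 : ℝ) ≤ L ^ (99 / 100 : ℝ) :=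
      Real.rpow_le_rpow_of_exponent_le hL1 (by norm_num)
    have f3 : L = L ^ (99 / 100 : ℝ) * (L ^ (1 / 200 : ℝ) * L ^ (1 / 200 : ℝ)) := by
      rw [← Real.rpow_add hL0, ← Real.rpow_add hL0]; norm_num
    have f4 : 1 ≤ L ^ (99 / 100 : ℝ) := Real.one_le_rpow hL1 (by norm_num)
    have f5 : √L ≤ L ^ (99 / 100 : ℝ) := by
      rw [Real.sqrt_eq_rpow]
      exact Real.rpow_le_rpow_of_exponent_le hL1 (by norm_num)
    have f6 : (B : ℝ) * Real.log L * L ^ (9 / 10 : ℝ) ≤ L ^ (99 / 100 : ℝ) := by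
      have hlog0 : 0 ≤ Real.log L := Real.log_nonneg hL1
      have a1 : (B : ℝ) * Real.log L ≤ L ^ (1 / 20 : ℝ) := by
        have : 0 ≤ (B : ℝ) * Real.log L := by positivity
        linarith
      calc (B : ℝ) * Real.log L * L ^ (9 / 10 : ℝ) ≤ L ^ (1 / 20 : ℝ) * L ^ (9 / 10 : ℝ) :=
            mul_le_mul_of_nonneg_right a1 (by positivity)
        _ = L ^ (19 / 20 : ℝ) := by rw [← Real.rpow_add hL0]; norm_num
        _ ≤ _ := f1
    have f7 : Real.log 2 * (m + 1) ≤ (m + 1) * L ^ (99 / 100 : ℝ) := by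
      have h8 : Real.log 2 ≤ 1 := by
        have := Real.log_two_lt_d9
        linarith
      have h9 : Real.log 2 * ((m : ℝ) + 1) ≤ 1 * (m + 1) := mul_le_mul_of_nonneg_right h8 (by positivity)
      have h10 : ((m : ℝ) + 1) * 1 ≤ (m + 1) * L ^ (99 / 100 : ℝ) :=
        mul_le_mul_of_nonneg_left f4 (by positivity)
      linarith
    have f8 : (k : ℝ) * Real.log 12 ≤ 3 * k * L ^ (99 / 100 : ℝ) := by
      have a1 : Real.log 12 ≤ 3 := by
        rw [Real.log_le_iff_le_exp (by norm_num)]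
        have := Real.exp_one_gt_d9
        have h3 : Real.exp 3 = Real.exp 1 ^ 3 := by rw [← Real.exp_nat_mul]; norm_num
        rw [h3]
        calc (12 : ℝ) ≤ 2.7 ^ 3 := by norm_num
          _ ≤ Real.exp 1 ^ 3 := pow_le_pow_left₀ (by norm_num) (by linarith) 3
      calc (k : ℝ) * Real.log 12 ≤ k * 3 := mul_le_mul_of_nonneg_left a1 hk0
        _ = 3 * k * 1 := by ring
        _ ≤ _ := mul_le_mul_of_nonneg_left f4 (by positivity)
    have f9 : (k : ℝ) * L ^ (19 / 20 : ℝ) ≤ k * L ^ (99 / 100 : ℝ) :=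
      mul_le_mul_of_nonneg_left f1 (Nat.cast_nonneg k)
    have f10 : ((m : ℝ) * k + 2 * m + 3 * k + 3) * L ^ (99 / 100 : ℝ) ≤ (1 / (400 * K) - 1 / (500 * K)) * L := by
      have a1 : (1 : ℝ) / (400 * K) - 1 / (500 * K) = 1 / (2000 * K) := by
        field_simp; norm_num
      rw [a1]
      have a2 : (1 : ℝ) / (2000 * K) * L = (L ^ (99 / 100 : ℝ)) *
          ((L ^ (1 / 200 : ℝ) * L ^ (1 / 200 : ℝ)) / (2000 * K)) := by
        nth_rewrite 1 [f3]
        ring
      rw [a2, mul_comm]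
      apply mul_le_mul_of_nonneg_left _ (by positivity)
      rw [le_div_iff₀ (by positivity)]
      have a3 : 1 ≤ L ^ (1 / 200 : ℝ) := Real.one_le_rpow hL1 (by norm_num)
      have hq0 : 0 < L ^ (1 / 200 : ℝ) := by positivity
      have a5 : (m : ℝ) * k + 2 * m + 3 * k + 3 ≤ (k + 5) * (m + 5) := by nlinarith
      calc ((m : ℝ) * k + 2 * m + 3 * k + 3) * (2000 * K) ≤ ((k + 5) * (m + 5)) * (2000 * K) :=
            mul_le_mul_of_nonneg_right a5 (by positivity)
        _ ≤ 20000 * (K : ℝ) * ((k + 5) * (m + 5)) := by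
            have : 0 ≤ ((k : ℝ) + 5) * (m + 5) * K := by positivity
            nlinarith
        _ ≤ L ^ (1 / 200 : ℝ) := h7
        _ = L ^ (1 / 200 : ℝ) * 1 := (mul_one _).symm
        _ ≤ _ := mul_le_mul_of_nonneg_left a3 hq0.le
    have f11 : ((k : ℝ) + L ^ (1 / 25 : ℝ)) * L ^ (19 / 20 : ℝ) ≤ (k + 1) * L ^ (99 / 100 : ℝ) := by
      rw [add_mul, f2]
      linarith
    have f12 : (m : ℝ) * (((k : ℝ) + L ^ (1 / 25 : ℝ)) * L ^ (19 / 20 : ℝ)) ≤
        m * ((k + 1) * L ^ (99 / 100 : ℝ)) := mul_le_mul_of_nonneg_left f11 hm0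
    have f13 : (m : ℝ) * ((k + 1) * L ^ (99 / 100 : ℝ)) = (m * k + m) * L ^ (99 / 100 : ℝ) := by ring
    rw [f13] at f12
    nlinarith

/-- one prime exponent `q ≤ (log N) ^ B`, one cube -/
theorem one_qM : ∃ K : ℕ, 1 ≤ K ∧ ∀ k m B : ℕ, ∃ N₀ : ℕ, ∀ N : ℕ, N₀ ≤ N → ∀ q : ℕ, q.Prime →
    (q : ℝ) ≤ Real.log N ^ B → ∀ a : Fin k → ℕ, ∀ E : Finset (Fin k → ℕ),
    (∀ A ∈ E, A ∈ Cube a N ∧ A ∈ RelM k m q (Real.log N ^ (1 / 25 : ℝ)) (Real.log N ^ (9 / 10 : ℝ))
      (GG (Real.log N))) →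
    (E.card : ℝ) ≤ (N : ℝ) ^ ((k : ℝ) - 1 / (500 * K)) := by
  classical
  obtain ⟨K, hK, hsup⟩ := supply page
  refine ⟨K, hK, fun k m B => ?_⟩
  obtain ⟨z₀, hz₀⟩ := hsup (3 * B)
  have hev := (Real.tendsto_log_atTop.comp tendsto_natCast_atTop_atTop).eventually
    ((ev_par' k B K (max z₀ 2) hK).and (ev_extM k m B K hK))
  obtain ⟨N₀, hN₀⟩ := eventually_atTop.1 hev
  refine ⟨max N₀ 1, fun N hN q hq hqB a E hE => ?_⟩
  have hN1 : 1 ≤ N := (le_max_right _ _).trans hN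
  obtain ⟨z, hz⟩ : ∃ z : ℕ, z = ⌊Real.exp (√(Real.log N))⌋₊ := ⟨_, rfl⟩
  have hp : Par' k B K (max z₀ 2) (Real.log N) z := by
    rw [hz]; exact (hN₀ N ((le_max_left _ _).trans hN)).1
  have hx : ExtM k m B K (Real.log N) z := by
    rw [hz]; exact (hN₀ N ((le_max_left _ _).trans hN)).2
  have hKR : (1 : ℝ) ≤ K := by exact_mod_cast hK
  set L := Real.log N with hL
  have hNR : (0 : ℝ) < N := by exact_mod_cast hN1
  have hNexp : (N : ℝ) = Real.exp L := (Real.exp_log hNR).symm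
  have hL0 : 0 < L := by linarith [hp.l1]
  have hsL : √L * √L = L := Real.mul_self_sqrt hL0.le
  have hz2 : 2 ≤ z := (le_max_right _ _).trans hp.z0
  have hzR : (0 : ℝ) < z := by exact_mod_cast (by omega : 0 < z)
  have hlogz : Real.log z ≤ √L := by
    have := Real.log_le_log hzR hp.zle
    rwa [Real.log_exp] at this
  obtain ⟨P, lam, p1, p2, p3, p4, p5⟩ := hz₀ z ((le_max_left _ _).trans hp.z0) q hq
    (hqB.trans hp.qz)
  -- j and Q
  set j := ⌊√L / (2 * K)⌋₊ with hj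
  have hjle : (j : ℝ) ≤ √L / (2 * K) := Nat.floor_le (by positivity)
  have hjge : √L / (2 * K) - 1 ≤ (j : ℝ) := by
    have := Nat.lt_floor_add_one (√L / (2 * K)); linarith
  have hjL : (j : ℝ) ≤ √L := hjle.trans (div_le_self (Real.sqrt_nonneg _) (by linarith))
  have hjK : (j : ℝ) * (2 * K) ≤ √L := by
    rwa [le_div_iff₀ (by positivity)] at hjle
  set Q := Nat.sqrt N with hQ
  have hQ2 : Q ^ 2 ≤ N := by rw [sq]; exact Nat.sqrt_le N
  have hprod : ∀ D ∈ P.powersetCard j, ∏ t ∈ D, t ≤ Q := by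
    intro D hD
    rw [mem_powersetCard] at hD
    rw [hQ, Nat.le_sqrt, ← sq]
    have h1 : ∏ t ∈ D, t ≤ z ^ (K * j) := by
      calc ∏ t ∈ D, t ≤ ∏ t ∈ D, z ^ K := prod_le_prod' fun t ht => (p1 t (hD.1 ht)).2.2.1
        _ = z ^ (K * j) := by rw [prod_const, hD.2, pow_mul]
    have h2 : ((z ^ (K * j)) ^ 2 : ℕ) ≤ N := by
      have h3 : (((z ^ (K * j)) ^ 2 : ℕ) : ℝ) ≤ N := by
        rw [← Real.log_le_log_iff (by positivity) hNR]
        push_cast
        rw [Real.log_pow, Real.log_pow, ← hL]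
        push_cast
        calc (2 : ℝ) * (K * j * Real.log z) = (j * (2 * K)) * Real.log z := by ring
          _ ≤ √L * √L := mul_le_mul hjK hlogz (by linarith [hp.l0]) (Real.sqrt_nonneg _)
          _ = L := hsL
      exact_mod_cast h3
    exact (Nat.pow_le_pow_left h1 2).trans h2
  have hPc : (z : ℝ) ^ (1 / 100 : ℝ) ≤ (P.card : ℝ) := p5
  have hjP : 2 * j ≤ P.card := by
    have : ((2 * j : ℕ) : ℝ) ≤ P.card := by
      push_cast
      have := hp.jz2
      linarith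
    exact_mod_cast this
  -- the covering
  set S₁ := (range (⌊L ^ (1 / 25 : ℝ)⌋₊ + 1)).filter (fun p => p.Prime) with hS1
  set S₂ := (range (⌊L ^ (9 / 10 : ℝ)⌋₊ + 1)).filter (fun p => p.Prime) with hS2
  have hmem : ∀ (Y : ℝ) (p : ℕ), p.Prime → (p : ℝ) ≤ Y → p ∈ (range (⌊Y⌋₊ + 1)).filter (fun p => p.Prime) := by
    intro Y p hp' hpY
    rw [mem_filter, mem_range]
    exact ⟨by have := Nat.le_floor hpY; omega, hp'⟩
  have hPne : P.Nonempty := by
    rw [← card_pos]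
    have h1 : 0 < (z : ℝ) ^ (1 / 100 : ℝ) := by positivity
    exact_mod_cast lt_of_lt_of_le h1 p5
  have hGlam : GG L < lam := by
    obtain ⟨t, ht⟩ := hPne
    have h1 := hx.zk
    have h2 := (p1 t ht).2.1
    have h3 := Nat.le_of_dvd p2 (p1 t ht).2.2.2.1
    have h4 : k + GG L + 1 ≤ (k + GG L + 1) ^ 2 := Nat.le_self_pow two_ne_zero _
    omega
  have hcov := card_relM_le (lsk add low) (k := k) (m := m) hq (lam := lam) (N := N) (Q := Q) (j := j) (G := GG L) a
    (P := P) (S₁ := S₁) (S₂ := S₂) (Y₁ := L ^ (1 / 25 : ℝ)) (Y₂ := L ^ (9 / 10 : ℝ)) hN1 hQ2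
    (fun t ht => (p1 t ht).1)
    (fun t ht => (p1 t ht).2.2.2.1) (fun t ht => (p1 t ht).2.2.2.2)
    (fun t ht => hx.zk.trans (p1 t ht).2.1.le) hprod (by omega) hGlam
    (fun t ht p hpS => by
      rw [hS1, mem_filter, mem_range] at hpS
      intro h0
      rw [ZMod.natCast_eq_zero_iff] at h0
      have h1 := Nat.le_of_dvd hpS.2.pos h0
      have h2 : (p : ℝ) ≤ L ^ (1 / 25 : ℝ) :=
        (Nat.le_floor_iff (by positivity)).1 (by omega)
      have h3 : L ^ (1 / 25 : ℝ) ≤ L ^ (1 : ℝ) :=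
        Real.rpow_le_rpow_of_exponent_le hp.l1 (by norm_num)
      rw [Real.rpow_one] at h3
      have h4 : ((z : ℕ) : ℝ) ≤ t := by exact_mod_cast (p1 t ht).2.1.le
      have h5 : (t : ℝ) ≤ p := by exact_mod_cast h1
      have h6 := hx.zL
      linarith)
    (fun p hp' hpY => hmem _ p hp' hpY) (fun p hp' hpY => hmem _ p hp' hpY)
  have hEle : (E.card : ℝ) ≤ (((Cube a N).filter (fun A => A ∈ RelM k m q (L ^ (1 / 25 : ℝ))
      (L ^ (9 / 10 : ℝ)) (GG L))).card : ℝ) := by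
    have : E ⊆ (Cube a N).filter (fun A => A ∈ RelM k m q (L ^ (1 / 25 : ℝ))
      (L ^ (9 / 10 : ℝ)) (GG L)) := by
      intro A hA
      rw [mem_filter]
      exact hE A hA
    exact_mod_cast card_le_card this
  refine hEle.trans (hcov.trans ?_)
  have hS1c : (S₁.card : ℝ) ≤ L ^ (1 / 25 : ℝ) := card_primes_le (by positivity)
  have hS2c : (S₂.card : ℝ) ≤ L ^ (9 / 10 : ℝ) := card_primes_le (by positivity)
  -- logarithms
  have hch := choose_lower' hjP
  have hqR : (0 : ℝ) < q := by exact_mod_cast hq.pos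
  have hlamR : (0 : ℝ) < lam := by exact_mod_cast p2
  have hlq : Real.log q ≤ B * Real.log L := by
    have := Real.log_le_log hqR hqB
    rwa [Real.log_pow] at this
  have hlq0 : 0 ≤ Real.log q := Real.log_natCast_nonneg q
  have hllam : Real.log lam ≤ L ^ (19 / 20 : ℝ) / 2 := by
    refine p4.trans ?_
    have h1 : Real.log z ^ (19 / 10 : ℝ) ≤ √L ^ (19 / 10 : ℝ) :=
      Real.rpow_le_rpow (by linarith [hp.l0]) hlogz (by norm_num)
    have h2 : √L ^ (19 / 10 : ℝ) = L ^ (19 / 20 : ℝ) := by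
      rw [Real.sqrt_eq_rpow, ← Real.rpow_mul hL0.le]; norm_num
    rw [h2] at h1
    linarith
  have hden : Real.exp (Real.log z / 200 * j) ≤ (P.card.choose j : ℝ) / 3 ^ j := by
    have h1 : Real.exp (Real.log z / 200 * j) = ((z : ℝ) ^ (1 / 200 : ℝ)) ^ j := by
      rw [Real.rpow_def_of_pos hzR, ← Real.exp_nat_mul]
      congr 1; ring
    rw [h1, le_div_iff₀ (by positivity), ← mul_pow]
    refine le_trans ?_ hch
    rcases Nat.eq_zero_or_pos j with h0 | h0
    · rw [h0]; simp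
    · apply pow_le_pow_left₀ (by positivity)
      have hj0 : (0 : ℝ) < j := by exact_mod_cast h0
      rw [le_div_iff₀ (by positivity)]
      calc (z : ℝ) ^ (1 / 200 : ℝ) * 3 * (2 * j) = (z : ℝ) ^ (1 / 200 : ℝ) * (6 * j) := by ring
        _ ≤ (z : ℝ) ^ (1 / 200 : ℝ) * (z : ℝ) ^ (1 / 200 : ℝ) := by
            apply mul_le_mul_of_nonneg_left _ (by positivity)
            have := hp.jz
            linarith
        _ = (z : ℝ) ^ (1 / 100 : ℝ) := by rw [← Real.rpow_add hzR]; norm_num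
        _ ≤ P.card := hPc
  have hlow : L / (400 * K) - √L ≤ Real.log z / 200 * j := by
    have a1 : (√L - 1) / 200 * (√L / (2 * K) - 1) ≤ Real.log z / 200 * j := by
      rcases le_total 0 (√L / (2 * K) - 1) with h0 | h0
      · apply mul_le_mul _ hjge h0 (by linarith [hp.l0])
        have := hp.zge
        linarith
      · have h1 : 0 ≤ Real.log z / 200 * j := by
          have := hp.l0
          positivity
        have h2 : 0 ≤ (√L - 1) / 200 := by
          have : 1 ≤ √L := by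
            rw [Real.one_le_sqrt]; exact hp.l1
          linarith
        nlinarith
    have a2 : (√L - 1) / 200 * (√L / (2 * K) - 1) =
        L / (400 * K) - (√L / 200 + √L / (400 * K) - 1 / 200) := by
      have hid : ∀ s Kr : ℝ, Kr ≠ 0 → (s - 1) / 200 * (s / (2 * Kr) - 1) =
          s * s / (400 * Kr) - (s / 200 + s / (400 * Kr) - 1 / 200) := by
        intro s Kr hKr
        field_simp
        ring
      have h1 := hid (√L) K (by positivity)
      rwa [hsL] at h1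
    have a3 : √L / (400 * K) ≤ √L / 400 := by
      apply div_le_div_of_nonneg_left (Real.sqrt_nonneg _) (by norm_num)
      linarith
    have a4 : 0 ≤ √L := Real.sqrt_nonneg _
    linarith
  have hfinal : 2 ^ (m + 1) * (lam : ℝ) ^ (m * (k + S₁.card)) * (q : ℝ) ^ S₂.card *
      ((12 * (N : ℝ)) ^ k / ((P.card.choose j : ℝ) / 3 ^ j)) ≤
      Real.exp (Real.log 2 * (m + 1) + m * ((k + L ^ (1 / 25 : ℝ)) * L ^ (19 / 20 : ℝ)) +
        B * Real.log L * L ^ (9 / 10 : ℝ) +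
        (k * Real.log 12 + k * L) - (L / (400 * K) - √L)) := by
    have b1 : (lam : ℝ) ^ (m * (k + S₁.card)) ≤
        Real.exp (m * ((k + L ^ (1 / 25 : ℝ)) * L ^ (19 / 20 : ℝ))) := by
      rw [← Real.log_le_iff_le_exp (by positivity), Real.log_pow]
      push_cast
      have e1 := Nat.cast_nonneg (α := ℝ) k
      have e2 := Nat.cast_nonneg (α := ℝ) S₁.card
      have e3 : (0 : ℝ) ≤ k + S₁.card := by linarith
      have e4 : 0 ≤ L ^ (19 / 20 : ℝ) := by positivity
      rw [mul_assoc]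
      apply mul_le_mul_of_nonneg_left _ (Nat.cast_nonneg m)
      calc ((k : ℝ) + S₁.card) * Real.log lam ≤ (k + S₁.card) * (L ^ (19 / 20 : ℝ) / 2) :=
            mul_le_mul_of_nonneg_left hllam e3
        _ ≤ (k + S₁.card) * L ^ (19 / 20 : ℝ) := mul_le_mul_of_nonneg_left (by linarith) e3
        _ ≤ _ := mul_le_mul_of_nonneg_right (by linarith) e4
    have b2 : (q : ℝ) ^ S₂.card ≤ Real.exp (B * Real.log L * L ^ (9 / 10 : ℝ)) := by
      rw [← Real.log_le_iff_le_exp (by positivity), Real.log_pow]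
      calc (S₂.card : ℝ) * Real.log q ≤ L ^ (9 / 10 : ℝ) * Real.log q :=
            mul_le_mul_of_nonneg_right hS2c hlq0
        _ ≤ L ^ (9 / 10 : ℝ) * (B * Real.log L) :=
            mul_le_mul_of_nonneg_left hlq (by positivity)
        _ = _ := by ring
    have b3 : (12 * (N : ℝ)) ^ k = Real.exp (k * Real.log 12 + k * L) := by
      rw [← mul_add, hL, ← Real.log_mul (by norm_num) hNR.ne', Real.exp_nat_mul,
        Real.exp_log (by positivity)]
    have b4 : (12 * (N : ℝ)) ^ k / ((P.card.choose j : ℝ) / 3 ^ j) ≤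
        Real.exp (k * Real.log 12 + k * L) / Real.exp (L / (400 * K) - √L) := by
      rw [b3]
      apply div_le_div_of_nonneg_left (Real.exp_nonneg _) (Real.exp_pos _)
      exact (Real.exp_le_exp.2 hlow).trans hden
    have b5 : (2 : ℝ) ^ (m + 1) = Real.exp (Real.log 2 * (m + 1)) := by
      have h1 := Real.exp_nat_mul (Real.log 2) (m + 1)
      rw [Real.exp_log (by norm_num)] at h1
      rw [← h1]
      congr 1
      push_cast
      ring
    rw [← Real.exp_sub] at b4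
    calc 2 ^ (m + 1) * (lam : ℝ) ^ (m * (k + S₁.card)) * (q : ℝ) ^ S₂.card *
        ((12 * (N : ℝ)) ^ k / ((P.card.choose j : ℝ) / 3 ^ j)) ≤
        Real.exp (Real.log 2 * (m + 1)) * Real.exp (m * ((k + L ^ (1 / 25 : ℝ)) * L ^ (19 / 20 : ℝ))) *
          Real.exp (B * Real.log L * L ^ (9 / 10 : ℝ)) *
          Real.exp (k * Real.log 12 + k * L - (L / (400 * K) - √L)) := by
          rw [← b5]
          gcongr
      _ = _ := by
          rw [← Real.exp_add, ← Real.exp_add, ← Real.exp_add]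
          congr 1; ring
  refine hfinal.trans ?_
  rw [hNexp, ← Real.exp_mul, Real.exp_le_exp]
  have hf := hx.fin
  have hk1 : L * ((k : ℝ) - 1 / (500 * K)) = k * L - 1 / (500 * K) * L := by ring
  have hk2 : (1 / (400 * K) - 1 / (500 * K)) * L = L / (400 * K) - 1 / (500 * K) * L := by ring
  rw [hk1]
  rw [hk2] at hf
  linarith

end Pool.Agent.Y353.SM
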